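import Pool.Agent.H987.Y.StA

/-! K1: kernel operators (Schur's test). -/

set_option autoImplicit false

open scoped BigOperators InnerProductSpace Topology
open Filter MeasureTheory

namespace Pool.Agent.H168.Y987

open Pool.Agent.Y662.TR
open Pool.Agent.H987.Z (Rs Gr Fr gZ HV)
open Pool.Agent.H987.Y

section schur

variable {ι : Type} {k : ι → ι → ℝ} {h : ℝ}

theorem sm1 (hk : Ker h k) (u : LL ι) (x : ι) : Summable fun y => |k x y| * ‖u y‖ := by
  refine Summable.of_nonneg_of_le (fun y => by positivity) (fun y => ?_) ((hk.sm x).mul_right ‖u‖)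
  exact mul_le_mul_of_nonneg_left (ll_coord u y) (abs_nonneg _)

theorem sm0 (hk : Ker h k) (u : LL ι) (x : ι) : Summable fun y => ((k x y : ℝ) : ℂ) * u y := by
  apply Summable.of_norm
  refine (sm1 hk u x).congr fun y => ?_
  rw [norm_mul, Complex.norm_real, Real.norm_eq_abs]

theorem sm2 (hk : Ker h k) (u : LL ι) (x : ι) : Summable fun y => |k x y| * ‖u y‖ ^ 2 := by
  refine Summable.of_nonneg_of_le (fun y => by positivity) (fun y => ?_)
    ((hk.sm x).mul_right (‖u‖ ^ 2))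
  have := ll_coord u y
  gcongr

theorem cs (hk : Ker h k) (u : LL ι) (x : ι) :
    (∑' y, |k x y| * ‖u y‖) ^ 2 ≤ h * ∑' y, |k x y| * ‖u y‖ ^ 2 := by
  have h1 : ∀ m : ℝ, 0 ≤ h * (m * m) + (-2 * ∑' y, |k x y| * ‖u y‖) * m +
      ∑' y, |k x y| * ‖u y‖ ^ 2 := by
    intro m
    have e : ∑' y, |k x y| * (‖u y‖ - m) ^ 2 = (∑' y, |k x y| * ‖u y‖ ^ 2) +
        (-2 * m) * (∑' y, |k x y| * ‖u y‖) + m ^ 2 * ∑' y, |k x y| := by
      rw [← tsum_mul_left, ← tsum_mul_left,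
        ← Summable.tsum_add (sm2 hk u x) ((sm1 hk u x).mul_left _),
        ← Summable.tsum_add ((sm2 hk u x).add ((sm1 hk u x).mul_left _)) ((hk.sm x).mul_left _)]
      apply tsum_congr
      intro y
      ring
    have h2 : 0 ≤ ∑' y, |k x y| * (‖u y‖ - m) ^ 2 := tsum_nonneg fun y => by positivity
    have h3 : m ^ 2 * ∑' y, |k x y| ≤ m ^ 2 * h := mul_le_mul_of_nonneg_left (hk.le x) (sq_nonneg m)
    nlinarith
  have h2 := discrim_le_zero h1
  unfold discrim at h2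
  nlinarith

theorem smP (hk : Ker h k) (u : LL ι) :
    Summable (fun p : ι × ι => |k p.1 p.2| * ‖u p.2‖ ^ 2) ∧
      ∑' p : ι × ι, |k p.1 p.2| * ‖u p.2‖ ^ 2 ≤ h * ‖u‖ ^ 2 := by
  have e : ∀ y : ι, ∑' x, |k x y| * ‖u y‖ ^ 2 = (∑' x, |k y x|) * ‖u y‖ ^ 2 := by
    intro y
    rw [← tsum_mul_right]
    exact tsum_congr fun x => by rw [hk.sy x y]
  have hle : ∀ y : ι, ∑' x, |k x y| * ‖u y‖ ^ 2 ≤ h * ‖u y‖ ^ 2 := by
    intro y
    rw [e y]
    exact mul_le_mul_of_nonneg_right (hk.le y) (sq_nonneg _)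
  have hs : ∀ y : ι, Summable fun x => |k x y| * ‖u y‖ ^ 2 := by
    intro y
    apply Summable.mul_right
    exact (hk.sm y).congr fun x => by rw [hk.sy y x]
  have hs2 : Summable (fun y => ∑' x, |k x y| * ‖u y‖ ^ 2) :=
    Summable.of_nonneg_of_le (fun y => tsum_nonneg fun x => by positivity) hle
      ((ll_summable u).mul_left _)
  have hsw : Summable (fun p : ι × ι => |k p.2 p.1| * ‖u p.1‖ ^ 2) := by
    rw [summable_prod_of_nonneg (fun p => by positivity)]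
    exact ⟨hs, hs2⟩
  refine ⟨?_, ?_⟩
  · exact hsw.prod_symm
  · calc ∑' p : ι × ι, |k p.1 p.2| * ‖u p.2‖ ^ 2
        = ∑' p : ι × ι, |k p.2 p.1| * ‖u p.1‖ ^ 2 :=
          (Equiv.prodComm ι ι).tsum_eq (fun p : ι × ι => |k p.2 p.1| * ‖u p.1‖ ^ 2)
      _ = ∑' y, ∑' x, |k x y| * ‖u y‖ ^ 2 := hsw.tsum_prod' hs
      _ ≤ ∑' y, h * ‖u y‖ ^ 2 := hs2.tsum_le_tsum hle ((ll_summable u).mul_left _)
      _ = h * ‖u‖ ^ 2 := by rw [tsum_mul_left, (ll_sum u).tsum_eq]

theorem nb (hk : Ker h k) (u : LL ι) (x : ι) :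
    ‖∑' y, ((k x y : ℝ) : ℂ) * u y‖ ^ 2 ≤ h * ∑' y, |k x y| * ‖u y‖ ^ 2 := by
  refine le_trans ?_ (cs hk u x)
  have : ‖∑' y, ((k x y : ℝ) : ℂ) * u y‖ ≤ ∑' y, |k x y| * ‖u y‖ := by
    have e : (fun y => ‖((k x y : ℝ) : ℂ) * u y‖) = fun y => |k x y| * ‖u y‖ := by
      funext y
      rw [norm_mul, Complex.norm_real, Real.norm_eq_abs]
    have := norm_tsum_le_tsum_norm (f := fun y => ((k x y : ℝ) : ℂ) * u y)
      (by rw [e]; exact sm1 hk u x)
    rwa [e] at this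
  gcongr

theorem opm (hk : Ker h k) (u : LL ι) :
    Summable (fun x => ‖∑' y, ((k x y : ℝ) : ℂ) * u y‖ ^ 2) ∧
      ∑' x, ‖∑' y, ((k x y : ℝ) : ℂ) * u y‖ ^ 2 ≤ (h * ‖u‖) ^ 2 := by
  obtain ⟨hP, hPle⟩ := smP hk u
  have hs : Summable (fun x => h * ∑' y, |k x y| * ‖u y‖ ^ 2) := by
    apply Summable.mul_left
    exact hP.prod
  have h1 : Summable (fun x => ‖∑' y, ((k x y : ℝ) : ℂ) * u y‖ ^ 2) :=
    Summable.of_nonneg_of_le (fun x => by positivity) (nb hk u) hs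
  refine ⟨h1, (h1.tsum_le_tsum (nb hk u) hs).trans ?_⟩
  rw [tsum_mul_left]
  have : ∑' x, ∑' y, |k x y| * ‖u y‖ ^ 2 ≤ h * ‖u‖ ^ 2 := by
    rw [← hP.tsum_prod' (fun x => sm2 hk u x)]
    exact hPle
  calc h * ∑' x, ∑' y, |k x y| * ‖u y‖ ^ 2 ≤ h * (h * ‖u‖ ^ 2) :=
        mul_le_mul_of_nonneg_left this hk.h0
    _ = (h * ‖u‖) ^ 2 := by ring

/-- the operator -/
noncomputable def OpC (hk : Ker h k) : LL ι →L[ℂ] LL ι :=
  LinearMap.mkContinuous
    { toFun := fun u => lmk (fun x => ∑' y, ((k x y : ℝ) : ℂ) * u y) (opm hk u).1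
      map_add' := fun u v => by
        apply ll_ext
        intro x
        change ∑' y, ((k x y : ℝ) : ℂ) * (u y + v y) =
          (∑' y, ((k x y : ℝ) : ℂ) * u y) + ∑' y, ((k x y : ℝ) : ℂ) * v y
        rw [← Summable.tsum_add (sm0 hk u x) (sm0 hk v x)]
        exact tsum_congr fun y => by ring
      map_smul' := fun c u => by
        apply ll_ext
        intro x
        change ∑' y, ((k x y : ℝ) : ℂ) * (c * u y) = c * ∑' y, ((k x y : ℝ) : ℂ) * u y
        rw [← tsum_mul_left]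
        exact tsum_congr fun y => by ring } h (fun u => by
      exact lmk_le _ (opm hk u).1 _ (mul_nonneg hk.h0 (norm_nonneg _)) (opm hk u).2)

theorem OpC_apply (hk : Ker h k) (u : LL ι) (x : ι) :
    OpC hk u x = ∑' y, ((k x y : ℝ) : ℂ) * u y := rfl

theorem Op_apply (hk : Ker h k) (u : LL ι) (x : ι) :
    Op k u x = ∑' y, ((k x y : ℝ) : ℂ) * u y := by
  have H : ∃ T : LL ι →L[ℂ] LL ι, ∀ (u : LL ι) (x : ι), T u x = ∑' y, ((k x y : ℝ) : ℂ) * u y :=
    ⟨OpC hk, OpC_apply hk⟩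
  unfold Op
  rw [dif_pos H]
  exact H.choose_spec u x

theorem Op_eq (hk : Ker h k) : Op k = OpC hk := by
  apply ContinuousLinearMap.ext
  intro u
  apply ll_ext
  intro x
  rw [Op_apply hk, OpC_apply hk]

theorem Op_norm (hk : Ker h k) : ‖Op k‖ ≤ h := by
  rw [Op_eq hk]
  exact LinearMap.mkContinuous_norm_le _ hk.h0 _

theorem smB (hk : Ker h k) (u v : LL ι) :
    Summable (fun p : ι × ι => ((k p.1 p.2 : ℝ) : ℂ) * u p.2 * v p.1) := by
  apply Summable.of_norm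
  have h1 := (smP hk u).1
  have h2 : Summable (fun p : ι × ι => |k p.1 p.2| * ‖v p.1‖ ^ 2) := by
    have := (smP hk v).1.prod_symm
    refine this.congr fun p => ?_
    simp only [Prod.fst_swap, Prod.snd_swap]
    rw [hk.sy]
  refine Summable.of_nonneg_of_le (fun p => norm_nonneg _) (fun p => ?_) (h1.add h2)
  rw [norm_mul, norm_mul, Complex.norm_real, Real.norm_eq_abs]
  have h3 : ‖u p.2‖ * ‖v p.1‖ ≤ ‖u p.2‖ ^ 2 + ‖v p.1‖ ^ 2 := by
    nlinarith [sq_nonneg (‖u p.2‖ - ‖v p.1‖), sq_nonneg ‖u p.2‖, sq_nonneg ‖v p.1‖]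
  calc |k p.1 p.2| * ‖u p.2‖ * ‖v p.1‖ = |k p.1 p.2| * (‖u p.2‖ * ‖v p.1‖) := by ring
    _ ≤ |k p.1 p.2| * (‖u p.2‖ ^ 2 + ‖v p.1‖ ^ 2) := mul_le_mul_of_nonneg_left h3 (abs_nonneg _)
    _ = _ := by ring

theorem Op_bil (hk : Ker h k) (u v : LL ι) :
    ∑' x, Op k u x * v x = ∑' x, u x * Op k v x := by
  have hB := smB hk u v
  have h1 : ∑' x, Op k u x * v x = ∑' x, ∑' y, ((k x y : ℝ) : ℂ) * u y * v x := by
    apply tsum_congr
    intro x
    rw [Op_apply hk, ← tsum_mul_right]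
  have h2 : ∑' y, u y * Op k v y = ∑' y, ∑' x, ((k x y : ℝ) : ℂ) * u y * v x := by
    apply tsum_congr
    intro y
    rw [Op_apply hk, ← tsum_mul_left]
    apply tsum_congr
    intro x
    rw [hk.sy y x]
    ring
  rw [h1, h2]
  exact (Summable.tsum_comm (f := fun x y => ((k x y : ℝ) : ℂ) * u y * v x) hB).symm

theorem Op_sa (hk : Ker h k) : IsSelfAdjoint (Op k) := by
  rw [ContinuousLinearMap.isSelfAdjoint_iff_isSymmetric]
  intro u v
  have hc : Summable (fun x => ‖(starRingEnd ℂ) (u x)‖ ^ 2) :=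
    (ll_summable u).congr fun x => by rw [RCLike.norm_conj]
  have h1 := (ll_inner (Op k u) v).tsum_eq
  have h2 := (ll_inner u (Op k v)).tsum_eq
  change ⟪Op k u, v⟫_ℂ = ⟪u, Op k v⟫_ℂ
  rw [← h1, ← h2]
  have h3 := Op_bil hk (lmk _ hc) v
  have h4 : ∀ x, (starRingEnd ℂ) (Op k u x) = Op k (lmk _ hc) x := by
    intro x
    rw [Op_apply hk, Op_apply hk, Complex.conj_tsum]
    apply tsum_congr
    intro y
    rw [map_mul, Complex.conj_ofReal]
    rfl
  calc ∑' x, (starRingEnd ℂ) (Op k u x) * v x = ∑' x, Op k (lmk _ hc) x * v x :=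
        tsum_congr fun x => by rw [h4 x]
    _ = _ := h3

theorem dg_hs (V : ι → ℝ) (x : ι) : HasSum (fun y => |dg V x y|) |clp 1 (V x)| := by
  have h1 := hasSum_single (f := fun y => |dg V x y|) x (by
    intro y hy
    unfold dg
    rw [if_neg (fun e => hy e.symm), abs_zero])
  have h2 : |dg V x x| = |clp 1 (V x)| := by
    unfold dg
    rw [if_pos rfl]
  rw [h2] at h1
  exact h1

theorem Ker_dg (hk : Ker h k) (V : ι → ℝ) : Ker (h + 1) (fun x y => k x y + dg V x y) := by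
  have hle : ∀ x y, |k x y + dg V x y| ≤ |k x y| + |dg V x y| := fun x y => abs_add_le _ _
  have hsm : ∀ x, Summable fun y => |k x y| + |dg V x y| :=
    fun x => (hk.sm x).add (dg_hs V x).summable
  have hs : ∀ x, Summable fun y => |k x y + dg V x y| := fun x =>
    Summable.of_nonneg_of_le (fun y => abs_nonneg _) (hle x) (hsm x)
  refine ⟨by linarith [hk.h0], ?_, hs, ?_⟩
  · intro x y
    rw [hk.sy x y]
    congr 1
    unfold dg
    by_cases e : x = y
    · subst e; rfl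
    · rw [if_neg e, if_neg (fun e' => e e'.symm)]
  · intro x
    calc ∑' y, |k x y + dg V x y| ≤ ∑' y, (|k x y| + |dg V x y|) :=
          (hs x).tsum_le_tsum (hle x) (hsm x)
      _ = (∑' y, |k x y|) + |clp 1 (V x)| := by
          rw [Summable.tsum_add (hk.sm x) (dg_hs V x).summable, (dg_hs V x).tsum_eq]
      _ ≤ h + 1 := by
          have := clp_abs 1 (V x)
          rw [abs_one] at this
          linarith [hk.le x]

theorem Op_dg (hk : Ker h k) (V : ι → ℝ) : Op (fun x y => k x y + dg V x y) = HV (Op k) V := by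
  apply ContinuousLinearMap.ext
  intro u
  apply ll_ext
  intro x
  rw [Op_apply (Ker_dg hk V)]
  unfold HV
  change _ = Op k u x + Mw 1 V u x
  rw [Op_apply hk, Mw_apply]
  have h1 : HasSum (fun y => ((dg V x y : ℝ) : ℂ) * u y) (((clp 1 (V x) : ℝ) : ℂ) * u x) := by
    have h1 := hasSum_single (f := fun y => ((dg V x y : ℝ) : ℂ) * u y) x (by
      intro y hy
      unfold dg
      rw [if_neg (fun e => hy e.symm)]
      simp)
    have h2 : ((dg V x x : ℝ) : ℂ) * u x = ((clp 1 (V x) : ℝ) : ℂ) * u x := by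
      unfold dg
      rw [if_pos rfl]
    rw [h2] at h1
    exact h1
  rw [← h1.tsum_eq, ← Summable.tsum_add (sm0 hk u x) h1.summable]
  apply tsum_congr
  intro y
  push_cast
  ring

theorem Op_sub {k' : ι → ι → ℝ} {h' δ : ℝ} (hk : Ker h k) (hk' : Ker h' k')
    (hd : Ker δ (fun x y => k x y - k' x y)) : Op k - Op k' = Op (fun x y => k x y - k' x y) := by
  apply ContinuousLinearMap.ext
  intro u
  apply ll_ext
  intro x
  change Op k u x - Op k' u x = _
  rw [Op_apply hk, Op_apply hk', Op_apply hd, ← Summable.tsum_sub (sm0 hk u x) (sm0 hk' u x)]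
  apply tsum_congr
  intro y
  push_cast
  ring

end schur

theorem op : Pool.Agent.H987.Y.S_op := by
  intro ι k h hk
  refine ⟨fun u x => ⟨sm0 hk u x, Op_apply hk u x⟩, Op_norm hk, ⟨Op_sa hk, Op_bil hk⟩,
    fun V => ⟨Ker_dg hk V, Op_dg hk V⟩, ?_⟩
  intro k' h' δ hk' hd
  rw [Op_sub hk hk' hd]
  exact Op_norm hd

end Pool.Agent.H168.Y987
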