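import Pool.Agent.H987.Y.StC

/-! M2: the free kernel. -/

set_option autoImplicit false

open scoped BigOperators InnerProductSpace Topology
open Filter MeasureTheory

namespace Pool.Agent.H168.Y987

open Pool.Agent.Y662.TR (LL Cf Mw dv hu clp)
open Pool.Agent.H987.Y

section kact

variable {d : ℕ}

open Classical in
/-- the point mass -/
noncomputable def pm (a y : Lt d) : ℝ := if y = a then 1 else 0

open Classical in
/-- the diagonal -/
noncomputable def dgn (c : ℝ) (a y : Lt d) : ℝ := if a = y then c else 0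

theorem hs_pt (u : Lt d → ℂ) (a : Lt d) :
    HasSum (fun y => ((pm a y : ℝ) : ℂ) * u y) (u a) := by
  have h := hasSum_single (f := fun y => ((pm a y : ℝ) : ℂ) * u y) a (by
    intro y hy
    unfold pm
    rw [if_neg hy, Complex.ofReal_zero, zero_mul])
  have e : ((pm a a : ℝ) : ℂ) * u a = u a := by
    unfold pm
    rw [if_pos rfl, Complex.ofReal_one, one_mul]
  rw [e] at h
  exact h

theorem hs_dg (u : Lt d → ℂ) (c : ℝ) (a : Lt d) :
    HasSum (fun y => ((dgn c a y : ℝ) : ℂ) * u y) ((c : ℂ) * u a) := by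
  have h := hasSum_single (f := fun y => ((dgn c a y : ℝ) : ℂ) * u y) a (by
    intro y hy
    unfold dgn
    rw [if_neg (fun e => hy e.symm), Complex.ofReal_zero, zero_mul])
  have e : ((dgn c a a : ℝ) : ℂ) * u a = (c : ℂ) * u a := by
    unfold dgn
    rw [if_pos rfl]
  rw [e] at h
  exact h

theorem kf_eq (x y : Lt d) : kf d x y = dgn (2 * (d : ℝ)) x y -
    ∑ i : Fin d, (pm (x + Pi.single i 1) y + pm (x - Pi.single i 1) y) := rfl

theorem hs_kf (u : Lt d → ℂ) (x : Lt d) : HasSum (fun y => ((kf d x y : ℝ) : ℂ) * u y)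
    (((2 * (d : ℝ) : ℝ) : ℂ) * u x - ∑ i : Fin d, (u (x + Pi.single i 1) + u (x - Pi.single i 1))) := by
  have h1 := hs_dg u (2 * (d : ℝ)) x
  have h3 : ∀ i : Fin d, HasSum (fun y : Lt d => ((pm (x + Pi.single i 1) y : ℝ) : ℂ) * u y +
      ((pm (x - Pi.single i 1) y : ℝ) : ℂ) * u y) (u (x + Pi.single i 1) + u (x - Pi.single i 1)) :=
    fun i => (hs_pt u (x + Pi.single i 1)).add (hs_pt u (x - Pi.single i 1))
  have h2 := hasSum_sum (s := (Finset.univ : Finset (Fin d))) (fun i _ => h3 i)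
  have e : (fun y => ((kf d x y : ℝ) : ℂ) * u y) = fun y =>
      ((dgn (2 * (d : ℝ)) x y : ℝ) : ℂ) * u y - ∑ i : Fin d,
        (((pm (x + Pi.single i 1) y : ℝ) : ℂ) * u y +
          ((pm (x - Pi.single i 1) y : ℝ) : ℂ) * u y) := by
    funext y
    rw [kf_eq]
    generalize dgn (2 * (d : ℝ)) x y = A
    rw [Complex.ofReal_sub, sub_mul, Complex.ofReal_sum, Finset.sum_mul]
    congr 1
    apply Finset.sum_congr rfl
    intro i _
    rw [Complex.ofReal_add, add_mul]
  rw [e]
  exact h1.sub h2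

theorem kf_tr (x y : Lt d) : kf d x y = kf d 0 (y - x) := by
  classical
  unfold kf
  congr 1
  · apply if_congr _ rfl rfl
    constructor
    · rintro rfl; simp
    · intro h; exact (sub_eq_zero.1 h.symm).symm
  · apply Finset.sum_congr rfl
    intro i _
    congr 1
    · apply if_congr _ rfl rfl
      rw [zero_add, sub_eq_iff_eq_add, add_comm]
    · apply if_congr _ rfl rfl
      rw [zero_sub, sub_eq_iff_eq_add]
      rw [show -Pi.single i 1 + x = x - Pi.single i (1 : ℤ) by abel]

theorem kf_sup (y : Lt d) (hy : kf d 0 y ≠ 0) :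
    y ∈ ({0} ∪ Set.range (fun i : Fin d => (Pi.single i 1 : Lt d))) ∪
      Set.range (fun i : Fin d => (-Pi.single i 1 : Lt d)) := by
  classical
  by_contra hc
  simp only [Set.mem_union, Set.mem_singleton_iff, Set.mem_range, not_or, not_exists] at hc
  obtain ⟨⟨h0, h1⟩, h2⟩ := hc
  apply hy
  unfold kf
  rw [if_neg (fun e => h0 e.symm), zero_sub, neg_eq_zero]
  apply Finset.sum_eq_zero
  intro i _
  rw [zero_add, zero_sub, if_neg (fun e => h1 i e.symm), if_neg (fun e => h2 i e.symm), add_zero]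

theorem kf_sm0 : Summable fun y : Lt d => |kf d 0 y| ^ (1 / 2 : ℝ) := by
  apply summable_of_hasFiniteSupport
  apply Set.Finite.subset (s := ({0} ∪ Set.range (fun i : Fin d => (Pi.single i 1 : Lt d))) ∪
      Set.range (fun i : Fin d => (-Pi.single i 1 : Lt d)))
  · exact ((Set.finite_singleton _).union (Set.finite_range _)).union (Set.finite_range _)
  · intro y hy
    apply kf_sup
    intro h0
    apply hy
    change |kf d 0 y| ^ (1 / 2 : ℝ) = 0
    rw [h0, abs_zero, Real.zero_rpow (by norm_num)]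

end kact

theorem kact : Pool.Agent.H987.Y.S_kact := by
  intro d
  refine ⟨fun u x => ⟨(hs_kf u x).summable, ?_⟩, ∑' y : Lt d, |kf d 0 y| ^ (1 / 2 : ℝ), fun x => ?_⟩
  · rw [(hs_kf u x).tsum_eq, ← Finset.sum_neg_distrib, sub_eq_iff_eq_add, ← Finset.sum_add_distrib]
    have : ∀ i : Fin d, -(u (x + Pi.single i 1) - u x + (u (x - Pi.single i 1) - u x)) +
        (u (x + Pi.single i 1) + u (x - Pi.single i 1)) = 2 * u x := by
      intro i; ring
    rw [Finset.sum_congr rfl fun i _ => this i, Finset.sum_const, Finset.card_univ,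
      Fintype.card_fin, nsmul_eq_mul]
    push_cast
    ring
  · have e : (fun y => |kf d x y| ^ (1 / 2 : ℝ)) =
        (fun z : Lt d => |kf d 0 z| ^ (1 / 2 : ℝ)) ∘ (Equiv.subRight x) := by
      funext y
      rw [kf_tr x y]
      rfl
    refine ⟨?_, ?_⟩
    · rw [e]
      exact (Equiv.subRight x).summable_iff.2 kf_sm0
    · rw [e]
      exact ((Equiv.subRight x).tsum_eq (fun z : Lt d => |kf d 0 z| ^ (1 / 2 : ℝ))).le

end Pool.Agent.H168.Y987
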